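import Pool.Agent.Run7.h152.PW.Main
import Pool.Agent.Run7.h152.LI.Lift
import Pool.Agent.R908.Prods

/-!
# Products of several varieties with complex conjugations
-/

set_option autoImplicit false

open CategoryTheory AlgebraicGeometry TensorProduct Polynomial

universe u v w u' v'

namespace Run7.h152.PW

open Pool.Agent.H914 Pool.Agent.H914.VarClass Pool.Agent.H914.VarClass.Obj
  Pool.Agent.H914.WeilCohomology Pool.Agent.R908 Pool.Agent.N180.Cf Run7.h152.LI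

variable {k : Type u} [Field k] {𝒱 : VarClass k} {ops : CycleOps 𝒱}
  {W : WeilCohomology.{u, v} ops} {X Y Z : 𝒱.Obj} {𝒢 : Set (Symmetry W)} {𝒴 : Set 𝒱.Obj}

lemma homEqNum_iff : HomEqNum W Z ↔ ∀ j, HomEqNumAt W Z j :=
  ⟨fun h j z hz => h j hz.1 z hz.2.1 hz.2.2, fun h j hj z hz hn => h j z ⟨hj, hz, hn⟩⟩

lemma num_iff : MNum (whole W Z).m ↔ HomEqNum W Z := by
  constructor
  · intro h j hj z hz hnum
    exact (mnum_m.1 h) j (W.cl Z z) (Submodule.subset_span ⟨j, rfl, z, hz, rfl⟩)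
      (numTriv_of_deg (W := W) hz hnum)
  · intro h
    exact mnum_m.2 (num_whole h)

lemma m_prod (Y Z : 𝒱.Obj) : (whole W (Y.prod Z)).m = (whole W Y).m * (whole W Z).m := by
  rw [← Mot.m_tensor, whole_tensor]

lemma m_pX (X Y : 𝒱.Obj) (n : ℕ) : (whole W (pX X Y n)).m = (whole W X).m ^ n * (whole W Y).m := by
  induction n with
  | zero => rw [pow_zero, one_mul]
  | succ n ih => rw [m_prod, ih, pow_succ', mul_assoc]

lemma isProductOf_mono {P Q : Set 𝒱.Obj} (h : P ⊆ Q) (hZ : IsProductOf P Z) : IsProductOf Q Z := by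
  induction hZ with
  | base hX => exact IsProductOf.base (h hX)
  | prod _ _ h1 h2 => exact IsProductOf.prod h1 h2

/-- The first factor is dominated. -/
lemma dominates_fst (W : WeilCohomology.{u, v} ops) (Z : 𝒱.Obj) {w : Y.Cycles}
    (hw : Y.IsCyc Y.dim w) (hd : Y.V.degCycle w ≠ 0) : Dominates W (Z.prod Y) Z := by
  refine ⟨fst Z Y, Y.dim, ops.pull (snd Z Y) w, (Y.V.degCycle w : W.K), ops.pull_mem _ hw,
    by exact_mod_cast hd, ?_⟩
  rw [← sub_eq_zero]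
  apply W.nondeg
  intro b
  rw [sub_mul, map_sub, W.tr_push, smul_mul_assoc, one_mul, map_smul, smul_eq_mul, W.cl_pull,
    W.even_comm (W.map_mem (snd Z Y) (W.cl_mem hw)), W.tr_prod, W.tr_cl hw, mul_comm, sub_self]

lemma homEqNum_of_prod {w : Y.Cycles} (hw : Y.IsCyc Y.dim w) (hd : Y.V.degCycle w ≠ 0)
    (h : HomEqNum W (Z.prod Y)) : HomEqNum W Z :=
  h.image (dominates_fst W Z hw hd)

/-- One more variety with a complex conjugation. -/
theorem insert_step {𝒯 : Set 𝒱.Obj} (hX : HasConjugation 𝒢 X)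
    (h𝒯 : ∀ Y, IsProductOf 𝒯 Y → HomEqNum W Y) (h0 : HasZeroCycle 𝒯)
    (hI : ∀ Z, IsProductOf (insert X 𝒯) Z → ∀ j, InjectiveAt W Z j) :
    ∀ Z, IsProductOf (insert X 𝒯) Z → HomEqNum W Z := by
  obtain ⟨D, E, P, Q, hE⟩ := hX
  obtain ⟨Y₀, hY₀, w, hw, hd⟩ := h0
  have hpX : ∀ (n : ℕ) (Y : 𝒱.Obj), IsProductOf 𝒯 Y → IsProductOf (insert X 𝒯) (pX X Y n) := by
    intro n Y hY
    induction n with
    | zero => exact isProductOf_mono (Set.subset_insert _ _) hY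
    | succ n ih => exact IsProductOf.prod (IsProductOf.base (Set.mem_insert _ _)) ih
  have key : ∀ (n : ℕ) (Y : 𝒱.Obj), IsProductOf 𝒯 Y → HomEqNum W (pX X Y n) := by
    intro n Y hY
    rw [homEqNum_iff]
    intro j
    exact homEqNumAt_of_injective hE h𝒯 hY (hI _ (hpX n Y hY) j)
  have hcl : ∀ Z, IsProductOf (insert X 𝒯) Z → ∀ m : Mon W,
      (∃ (n : ℕ) (Y : 𝒱.Obj), IsProductOf 𝒯 Y ∧ m = (whole W (pX X Y n)).m) →
      ∃ (n : ℕ) (Y : 𝒱.Obj), IsProductOf 𝒯 Y ∧ (whole W Z).m * m = (whole W (pX X Y n)).m := by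
    intro Z hZ
    induction hZ with
    | base hZ =>
      rename_i Z
      rintro m ⟨n, Y, hY, rfl⟩
      rcases hZ with rfl | hZ
      · exact ⟨n + 1, Y, hY, (m_prod _ _).symm⟩
      · refine ⟨n, Z.prod Y, IsProductOf.prod (IsProductOf.base hZ) hY, ?_⟩
        rw [m_pX, m_pX, m_prod, mul_left_comm]
    | prod _ _ h1 h2 =>
      intro m hm
      rw [m_prod, mul_assoc]
      exact h1 _ (h2 m hm)
  intro Z hZ
  obtain ⟨n, Y, hY, hm⟩ := hcl Z hZ _ ⟨0, Y₀, IsProductOf.base hY₀, rfl⟩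
  have h1 : HomEqNum W (Z.prod Y₀) := by
    rw [← num_iff, m_prod, hm, num_iff]
    exact key n Y hY
  exact homEqNum_of_prod hw hd h1

/-- The abelian varieties. -/
theorem abelian_step {𝒜 : Set 𝒱.Obj} (h𝒜 : ∀ A ∈ 𝒜, IsConjugationAbelian 𝒢 A)
    (hprod : ClosedUnderProducts 𝒜) (h𝒴 : ∀ Y, IsProductOf 𝒴 Y → HomEqNum W Y)
    (h0 : HasZeroCycle 𝒴) (hI : ∀ Z, IsProductOf (𝒜 ∪ 𝒴) Z → ∀ j, InjectiveAt W Z j) :
    ∀ Z, IsProductOf (𝒜 ∪ 𝒴) Z → HomEqNum W Z := by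
  obtain ⟨Y₀, hY₀, w, hw, hd⟩ := h0
  have key : ∀ A ∈ 𝒜, ∀ Y, IsProductOf 𝒴 Y → HomEqNum W (A.prod Y) := by
    intro A hA Y hY
    obtain ⟨m, D, e, P, Q, h1, h2, h3⟩ := h𝒜 A hA
    rw [homEqNum_iff]
    intro j
    exact LI.homEqNumAt_of_injective h1 h2 h3 h𝒴 hY (hI _ (IsProductOf.prod
      (IsProductOf.base (Or.inl hA)) (isProductOf_mono Set.subset_union_right hY)) j)
  set G : Mon W → Prop := fun m => (∃ Y, IsProductOf 𝒴 Y ∧ m = (whole W Y).m) ∨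
    ∃ A ∈ 𝒜, ∃ Y, IsProductOf 𝒴 Y ∧ m = (whole W A).m * (whole W Y).m with hG
  have hcl : ∀ Z, IsProductOf (𝒜 ∪ 𝒴) Z → ∀ m : Mon W, G m → G ((whole W Z).m * m) := by
    intro Z hZ
    induction hZ with
    | base hZ =>
      rename_i Z
      intro m hm
      rcases hZ with hZ | hZ
      · rcases hm with ⟨Y, hY, rfl⟩ | ⟨A, hA, Y, hY, rfl⟩
        · exact Or.inr ⟨Z, hZ, Y, hY, rfl⟩
        · exact Or.inr ⟨Z.prod A, hprod Z hZ A hA, Y, hY, by rw [m_prod, mul_assoc]⟩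
      · rcases hm with ⟨Y, hY, rfl⟩ | ⟨A, hA, Y, hY, rfl⟩
        · exact Or.inl ⟨Z.prod Y, IsProductOf.prod (IsProductOf.base hZ) hY, by rw [m_prod]⟩
        · exact Or.inr ⟨A, hA, Z.prod Y, IsProductOf.prod (IsProductOf.base hZ) hY, by
            rw [m_prod, mul_left_comm]⟩
    | prod _ _ h1 h2 =>
      intro m hm
      rw [m_prod, mul_assoc]
      exact h1 _ (h2 m hm)
  intro Z hZ
  have h1 : HomEqNum W (Z.prod Y₀) := by
    rw [← num_iff, m_prod]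
    rcases hcl Z hZ _ (Or.inl ⟨Y₀, IsProductOf.base hY₀, rfl⟩) with ⟨Y, hY, hm⟩ | ⟨A, hA, Y, hY, hm⟩
    · rw [hm, num_iff]
      exact h𝒴 Y hY
    · rw [hm, ← m_prod, num_iff]
      exact key A hA Y hY
  exact homEqNum_of_prod hw hd h1

/-- A product involves only finitely many members. -/
lemma exists_list {𝒮 𝒳 : Set 𝒱.Obj} (hZ : IsProductOf (𝒮 ∪ 𝒳) Z) :
    ∃ S : List 𝒱.Obj, (∀ X ∈ S, X ∈ 𝒳) ∧ IsProductOf (𝒮 ∪ {X | X ∈ S}) Z := by
  induction hZ with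
  | base hZ =>
    rename_i Z
    rcases hZ with hZ | hZ
    · exact ⟨[], fun X hX => absurd hX List.not_mem_nil, IsProductOf.base (Or.inl hZ)⟩
    · exact ⟨[Z], fun X hX => by rw [List.mem_singleton.1 hX]; exact hZ,
        IsProductOf.base (Or.inr (List.mem_singleton.2 rfl))⟩
  | prod _ _ h1 h2 =>
    obtain ⟨S, hS, hS'⟩ := h1
    obtain ⟨T, hT, hT'⟩ := h2
    refine ⟨S ++ T, fun X hX => ?_, IsProductOf.prod (isProductOf_mono ?_ hS')
      (isProductOf_mono ?_ hT')⟩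
    · rcases List.mem_append.1 hX with h | h
      · exact hS X h
      · exact hT X h
    · exact Set.union_subset_union_right _ fun X hX => List.mem_append.2 (Or.inl hX)
    · exact Set.union_subset_union_right _ fun X hX => List.mem_append.2 (Or.inr hX)

/-- **The injectivity conjecture implies the conjecture D for all products.** -/
theorem all_products {𝒜 𝒳 : Set 𝒱.Obj} (h𝒜 : ∀ A ∈ 𝒜, IsConjugationAbelian 𝒢 A)
    (hprod : ClosedUnderProducts 𝒜) (h𝒳 : ∀ X ∈ 𝒳, HasConjugation 𝒢 X)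
    (h𝒴 : ∀ Y, IsProductOf 𝒴 Y → HomEqNum W Y) (h0 : HasZeroCycle 𝒴)
    (hI : ∀ Z, IsProductOf (𝒜 ∪ 𝒴 ∪ 𝒳) Z → ∀ j, InjectiveAt W Z j) :
    ∀ Z, IsProductOf (𝒜 ∪ 𝒴 ∪ 𝒳) Z → HomEqNum W Z := by
  intro Z hZ
  obtain ⟨S, hS, hZS⟩ := exists_list hZ
  clear hZ
  induction S generalizing Z with
  | nil =>
    have h1 : 𝒜 ∪ 𝒴 ∪ {X : 𝒱.Obj | X ∈ []} ⊆ 𝒜 ∪ 𝒴 := by
      rintro X (hX | hX)
      · exact hX
      · exact absurd hX List.not_mem_nil
    exact abelian_step h𝒜 hprod h𝒴 h0 (fun Z hZ => hI Z (isProductOf_mono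
      Set.subset_union_left hZ)) Z (isProductOf_mono h1 hZS)
  | cons X S ih =>
    have hXX : X ∈ 𝒳 := hS X List.mem_cons_self
    have hSS : ∀ X' ∈ S, X' ∈ 𝒳 := fun X' h => hS X' (List.mem_cons_of_mem _ h)
    refine insert_step (𝒯 := 𝒜 ∪ 𝒴 ∪ {X | X ∈ S}) (h𝒳 X hXX) (fun Y hY => ih Y hSS hY) ?_ ?_ Z
      (isProductOf_mono ?_ hZS)
    · obtain ⟨Y₀, hY₀, w, hw⟩ := h0
      exact ⟨Y₀, Or.inl (Or.inr hY₀), w, hw⟩
    · intro Z hZ
      refine hI Z (isProductOf_mono ?_ hZ)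
      rintro X' (rfl | hX' | hX')
      · exact Or.inr hXX
      · exact Or.inl hX'
      · exact Or.inr (hSS X' hX')
    · rintro X' (hX' | hX')
      · exact Or.inr (Or.inl hX')
      · rcases List.mem_cons.1 hX' with rfl | hX'
        · exact Or.inl rfl
        · exact Or.inr (Or.inr hX')

/-- The injectivity conjecture lifts from reductions. -/
lemma injectiveAt_of_reduction {j : ℕ} (h : HasGoodReduction.{u, v, u', v'} W Z j) :
    InjectiveAt W Z j := by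
  obtain ⟨k₀, _, 𝒱₀, ops₀, W₀, Z₀, hsp, h1 | h1⟩ := h
  · exact hsp.injectiveAt (injectiveAt_of_homEqNumAt h1)
  · exact hsp.injectiveAt h1

end Run7.h152.PW
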