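import Pool.Agent.Run7.h152.LI.Defs
import Pool.Agent.R908.KnB

/-!
# Varieties with an algebraic complex conjugation, and reductions: definitions
-/

set_option autoImplicit false

open CategoryTheory AlgebraicGeometry Polynomial

universe u v u' v'

namespace Run7.h152.PW

open Pool.Agent.H914 Pool.Agent.H914.VarClass Pool.Agent.R908 Run7.h152.LI

variable {k : Type u} [Field k] {𝒱 : VarClass k} {ops : CycleOps 𝒱}

/-- The form `x, y ↦ tr (x y)`. -/
def traceForm {K : Type*} [Field K] {B : Type*} [Ring B] [Algebra K B] (tr : B →ₗ[K] K)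
    (x y : B) : K :=
  tr (x * y)

/-- The operator `e` commutes with the multiplication by `ξ`. -/
def CommutesWithMul {B : Type*} [Mul B] (ξ : B) (e : B → B) : Prop := ∀ x, e (ξ * x) = ξ * e x

/-- Hard Lefschetz and the conjecture of Lefschetz type hold for `X` and the divisor `D`, and the
cycle `E` on `X × X`, of codimension `dim X`, acts as follows on the cohomology of `X`: its operator
`e` commutes with the multiplication by the class of `D`; `P(e) = 0`, and the transpose of `e` is
`Q(e)`, for polynomials `P`, `Q` with rational coefficients, where `P` is squarefree and `Q(z)` is the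
complex conjugate of `z` for the complex roots `z` of `P`; and for each `i` and each irreducible
factor `f` of `P` over the coefficient field the kernel of `f(e)` on `H^i(X)` is irreducible under
the algebraic correspondences of degree `0` and the symmetries in `𝒢`. -/
structure IsConjugation {W : WeilCohomology.{u, v} ops} (𝒢 : Set (Symmetry W)) (X : 𝒱.Obj)
    (D : X.Cycles) (E : (X.prod X).Cycles) (P Q : ℚ[X]) : Prop where
  divisor : X.IsCyc 1 D
  hardLefschetz : HardLefschetz W X D
  lefschetzB : LefschetzB W X D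
  cycle : (X.prod X).IsCyc X.dim E
  commutes : CommutesWithMul (W.cl X D) (W.corr (W.cl (X.prod X) E))
  conjugate : AdjointConjugate ⊤ (traceForm (W.tr X)) (W.corr (W.cl (X.prod X) E)) P Q
  irreducible : ∀ i, KernelsIrreducible (W.gr X i) (cycleMaps W X) (symmetryMaps 𝒢 X)
    (W.corr (W.cl (X.prod X) E)) P

/-- There are `D`, `E`, `P`, `Q` as in `IsConjugation`. -/
def HasConjugation {W : WeilCohomology.{u, v} ops} (𝒢 : Set (Symmetry W)) (X : 𝒱.Obj) : Prop :=
  ∃ (D : X.Cycles) (E : (X.prod X).Cycles) (P Q : ℚ[X]), IsConjugation 𝒢 X D E P Q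

/-- The variety `A` is an abelian variety (only the properties in `IsAbelianType` are used) with an
endomorphism `e` which generates a field or product of fields on which the Rosati involution is the
complex conjugation (`IsRosati`), such that the kernels of the `f(e)` on `H^1(A)` are irreducible
(`IrreducibleKernels`). -/
def IsConjugationAbelian {W : WeilCohomology.{u, v} ops} (𝒢 : Set (Symmetry W)) (A : 𝒱.Obj) :
    Prop :=
  ∃ (m : A.prod A ⟶ A) (D : A.Cycles) (e : A ⟶ A) (P Q : ℚ[X]), IsAbelianType 𝒢 A m D ∧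
    IsRosati W D e P Q ∧ IrreducibleKernels 𝒢 A e P

/-- The set `𝒜` is closed under products. -/
def ClosedUnderProducts (𝒜 : Set 𝒱.Obj) : Prop := ∀ A ∈ 𝒜, ∀ B ∈ 𝒜, A.prod B ∈ 𝒜

/-- Some member of `𝒴` has a zero-cycle of nonzero degree. -/
def HasZeroCycle (𝒴 : Set 𝒱.Obj) : Prop :=
  ∃ Y ∈ 𝒴, ∃ w : Y.Cycles, Y.IsCyc Y.dim w ∧ Y.V.degCycle w ≠ 0

/-- The cycles of codimension `j` on `Z` specialize to a variety `Z₀`, over any field, for which the
conjecture D or the injectivity conjecture is true in codimension `j`. -/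
def HasGoodReduction (W : WeilCohomology.{u, v} ops) (Z : 𝒱.Obj) (j : ℕ) : Prop :=
  ∃ (k₀ : Type u') (_ : Field k₀) (𝒱₀ : VarClass k₀) (ops₀ : CycleOps 𝒱₀)
    (W₀ : WeilCohomology.{u', v'} ops₀) (Z₀ : 𝒱₀.Obj), CyclesSpecialize W W₀ Z Z₀ j ∧
      (HomEqNumAt W₀ Z₀ j ∨ InjectiveAt W₀ Z₀ j)

end Run7.h152.PW
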