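import Pool.Agent.R908.RatC
import Pool.Agent.N180.CfL

/-!
# Products of operators on powers, and the transport to the conjugate in one codimension
-/

set_option autoImplicit false

open CategoryTheory AlgebraicGeometry TensorProduct Polynomial

universe u v w

namespace Run7.h152.PW

open Pool.Agent.H914 Pool.Agent.H914.VarClass Pool.Agent.H914.VarClass.Obj
  Pool.Agent.H914.WeilCohomology Pool.Agent.R908 Pool.Agent.N180.Cf

variable {k : Type u} [Field k] {𝒱 : VarClass k} {ops : CycleOps 𝒱}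
  {W : WeilCohomology.{u, v} ops} {X Y Z : 𝒱.Obj}

/-- The product of operators on `X ^ n × Y`. -/
noncomputable def nestOp (W : WeilCohomology.{u, v} ops) {X Y : 𝒱.Obj} :
    ∀ n : ℕ, (Fin n → (W.H X →ₗ[W.K] W.H X)) → (W.H (pX X Y n) →ₗ[W.K] W.H (pX X Y n))
  | 0, _ => LinearMap.id
  | n + 1, A => extHom W (A 0) (nestOp W n fun i => A i.succ)

lemma nestOp_box {n : ℕ} (A : Fin n → (W.H X →ₗ[W.K] W.H X)) (x : Fin n → W.H X) (y : W.H Y) :
    nestOp W n A (box W n x y) = box W n (fun i => A i (x i)) y := by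
  induction n with
  | zero => rfl
  | succ n ih =>
    have h1 : box W (n + 1) x y = W.map (fst X (pX X Y n)) (x 0) *
        W.map (snd X (pX X Y n)) (box W n (fun i => x i.succ) y) := rfl
    have h2 : box W (n + 1) (fun i => A i (x i)) y = W.map (fst X (pX X Y n)) (A 0 (x 0)) *
        W.map (snd X (pX X Y n)) (box W n (fun i => A i.succ (x i.succ)) y) := rfl
    rw [h1, h2, nestOp, extHom_tmul, ih]

lemma box_zero {n : ℕ} (x : Fin n → W.H X) (y : W.H Y) {i : Fin n} (hi : x i = 0) :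
    box W n x y = 0 := by
  induction n with
  | zero => exact i.elim0
  | succ n ih =>
    have h1 : box W (n + 1) x y = W.map (fst X (pX X Y n)) (x 0) *
        W.map (snd X (pX X Y n)) (box W n (fun i => x i.succ) y) := rfl
    rw [h1]
    refine Fin.cases (fun hi => ?_) (fun i hi => ?_) i hi
    · rw [hi, map_zero, zero_mul]
    · rw [ih (fun i => x i.succ) hi, map_zero, mul_zero]

/-- A sum over families. -/
lemma sum_nestOp {J : Type w} [Fintype J] [DecidableEq J] (A : J → (W.H X →ₗ[W.K] W.H X))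
    (hA : ∑ j, A j = LinearMap.id) (n : ℕ) :
    ∑ τ : Fin n → J, nestOp W (Y := Y) n (fun i => A (τ i)) = LinearMap.id := by
  induction n with
  | zero =>
    rw [Fintype.sum_unique]
    rfl
  | succ n ih =>
    have key : ∀ (B : Finset J) (C : Finset (Fin n → J)),
        ∑ j ∈ B, ∑ τ ∈ C, extHom W (A j) (nestOp W (Y := Y) n (fun i => A (τ i))) =
          extHom W (∑ j ∈ B, A j) (∑ τ ∈ C, nestOp W (Y := Y) n (fun i => A (τ i))) := by
      intro B C
      have h1 : ∀ j, ∑ τ ∈ C, extHom W (A j) (nestOp W (Y := Y) n (fun i => A (τ i))) =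
          extHom W (A j) (∑ τ ∈ C, nestOp W (Y := Y) n (fun i => A (τ i))) := by
        intro j
        classical
        induction C using Finset.induction_on with
        | empty => rw [Finset.sum_empty, Finset.sum_empty, extHom_zero_right]
        | insert a s ha ih => rw [Finset.sum_insert ha, Finset.sum_insert ha, extHom_add_right, ih]
      rw [Finset.sum_congr rfl fun j _ => h1 j]
      classical
      induction B using Finset.induction_on with
      | empty => rw [Finset.sum_empty, Finset.sum_empty, extHom_zero_left]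
      | insert a s ha ih => rw [Finset.sum_insert ha, Finset.sum_insert ha, extHom_add_left, ih]
    rw [← (Fin.consEquiv fun _ => J).sum_comp, Fintype.sum_prod_type]
    have h2 := key Finset.univ Finset.univ
    rw [hA, ih, extHom_id] at h2
    exact h2

lemma exists_nestOp {J : Type w} [Fintype J] [DecidableEq J] (A : J → (W.H X →ₗ[W.K] W.H X))
    (hA : ∑ j, A j = LinearMap.id) {n : ℕ} {x : W.H (pX X Y n)} (hx : x ≠ 0) :
    ∃ τ : Fin n → J, nestOp W n (fun i => A (τ i)) x ≠ 0 := by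
  by_contra hcon
  push Not at hcon
  apply hx
  have h1 := congrArg (fun G => G x) (sum_nestOp (Y := Y) A hA n)
  beta_reduce at h1
  rw [LinearMap.sum_apply, Finset.sum_eq_zero (fun τ _ => hcon τ)] at h1
  exact h1.symm

section Base

variable {L : Type v} [Field L] [Algebra W.K L]

lemma one_tmul_box {n : ℕ} (x : Fin n → W.H X) (y : W.H Y) :
    ((1 : L) ⊗ₜ[W.K] box W n x y : L ⊗[W.K] W.H (pX X Y n)) =
      box (baseW W L) n (fun i => (1 : L) ⊗ₜ[W.K] x i) ((1 : L) ⊗ₜ[W.K] y) := by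
  induction n with
  | zero => rfl
  | succ n ih =>
    have h1 : box W (n + 1) x y = W.map (fst X (pX X Y n)) (x 0) *
        W.map (snd X (pX X Y n)) (box W n (fun i => x i.succ) y) := rfl
    have h2 : box (baseW W L) (n + 1) (fun i => ((1 : L) ⊗ₜ[W.K] x i : L ⊗[W.K] W.H X))
        ((1 : L) ⊗ₜ[W.K] y) =
        (baseW W L).map (fst X (pX X Y n)) ((1 : L) ⊗ₜ[W.K] x 0) *
        (baseW W L).map (snd X (pX X Y n)) (box (baseW W L) n
          (fun i => ((1 : L) ⊗ₜ[W.K] x i.succ : L ⊗[W.K] W.H X)) ((1 : L) ⊗ₜ[W.K] y)) := rfl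
    rw [h1, h2, ← ih, base_map_tmul, base_map_tmul]
    have h3 : ((1 : L) ⊗ₜ[W.K] (W.map (fst X (pX X Y n)) (x 0)) : L ⊗[W.K] W.H (pX X Y (n + 1))) *
        ((1 : L) ⊗ₜ[W.K] (W.map (snd X (pX X Y n)) (box W n (fun i => x i.succ) y))) =
        ((1 : L) * 1) ⊗ₜ[W.K] (W.map (fst X (pX X Y n)) (x 0) *
          W.map (snd X (pX X Y n)) (box W n (fun i => x i.succ) y)) :=
      Algebra.TensorProduct.tmul_mul_tmul _ _ _ _
    rw [one_mul] at h3
    exact h3.symm

/-- **The weights of the components.** -/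
theorem le_of_nestOp {F : ℝ → Submodule W.K (W.H X)} {n : ℕ}
    (A : Fin n → ((baseW W L).H X →ₗ[(baseW W L).K] (baseW W L).H X)) (w : Fin n → ℝ)
    (hA : ∀ i t, ∀ x ∈ F t, A i ((1 : L) ⊗ₜ[W.K] x) ≠ (0 : L ⊗[W.K] W.H X) → t ≤ w i)
    {s : ℝ} {x : W.H (pX X Y n)} (hx : x ∈ prodFil W F Y n s)
    (hne : nestOp (baseW W L) n A ((1 : L) ⊗ₜ[W.K] x) ≠ (0 : L ⊗[W.K] W.H (pX X Y n))) :
    s ≤ ∑ i, w i := by
  by_contra hcon
  apply hne
  clear hne
  have h0 : ∀ x ∈ prodFil W F Y n s,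
      nestOp (baseW W L) n A ((1 : L) ⊗ₜ[W.K] x) = (0 : L ⊗[W.K] W.H (pX X Y n)) := by
    intro x hx
    rw [prodFil, prodSpan] at hx
    induction hx using Submodule.span_induction with
    | mem x hx =>
      obtain ⟨a, t, y, ha, ht, rfl⟩ := hx
      by_contra hne
      apply hcon
      refine ht.trans (Finset.sum_le_sum fun i _ => hA i (t i) (a i) (ha i) ?_)
      intro h0
      apply hne
      rw [one_tmul_box]
      exact (nestOp_box A _ _).trans (box_zero _ _ (i := i) h0)
    | zero =>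
      have h1 : ((1 : L) ⊗ₜ[W.K] (0 : W.H (pX X Y n)) : L ⊗[W.K] W.H (pX X Y n)) = 0 :=
        TensorProduct.tmul_zero _ _
      rw [h1]
      exact map_zero _
    | add x y _ _ hx hy =>
      have h1 : ((1 : L) ⊗ₜ[W.K] (x + y) : L ⊗[W.K] W.H (pX X Y n)) =
        (1 : L) ⊗ₜ[W.K] x + (1 : L) ⊗ₜ[W.K] y := TensorProduct.tmul_add _ _ _
      rw [h1]
      refine (map_add (nestOp (baseW W L) n A) _ _).trans ?_
      exact (congrArg₂ (fun a b : L ⊗[W.K] W.H (pX X Y n) => a + b) hx hy).trans (add_zero _)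
    | smul c x _ hx =>
      have h1 : ((1 : L) ⊗ₜ[W.K] (c • x) : L ⊗[W.K] W.H (pX X Y n)) =
        (algebraMap W.K L c) • ((1 : L) ⊗ₜ[W.K] x) := by
        rw [TensorProduct.tmul_smul, algebraMap_smul]
      rw [h1]
      refine (map_smul (nestOp (baseW W L) n A) (show (baseW W L).K from algebraMap W.K L c)
        _).trans ?_
      exact (congrArg (fun a : L ⊗[W.K] W.H (pX X Y n) => (algebraMap W.K L c) • a) hx).trans
        (smul_zero _)
  exact h0 x hx

end Base

/-- Finitely many algebraic classes of codimension `j` are rational combinations of algebraic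
classes which are linearly independent over `K`. -/
lemma exists_rat_basis_at {j : ℕ} (hI : IndependenceLifts W.K (W.cl Z) (Z.IsCyc j)) {κ : Type*}
    [Fintype κ] (y : κ → W.H Z) (hy : ∀ i, y i ∈ algClasses W Z j) :
    ∃ (n : ℕ) (d : Fin n → W.H Z) (r : κ → Fin n → ℚ), LinearIndependent W.K d ∧
      ∀ i, y i = ∑ l, (r i l : W.K) • d l := by
  classical
  let _ : Module ℚ (W.H Z) := Module.compHom (W.H Z) (algebraMap ℚ W.K)
  have hsm : ∀ (q : ℚ) (x : W.H Z), q • x = (q : W.K) • x := fun q x => by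
    change (algebraMap ℚ W.K q) • x = _
    rw [eq_ratCast]
  obtain ⟨S, hSr, hSspan, hSli⟩ := exists_linearIndependent ℚ (Set.range y)
  have hfin : S.Finite := (Set.finite_range y).subset hSr
  have := hfin.fintype
  have hS : ∀ s : S, ∃ z, Z.IsCyc j z ∧ W.cl Z z = s := by
    intro s
    obtain ⟨i, hi⟩ := hSr s.2
    have h1 := hy i
    rw [hi] at h1
    exact h1
  choose z hz hzs using hS
  set ε := Fintype.equivFin S with hε
  have hli : LinearIndependent ℚ (fun i => ((ε.symm i : S) : W.H Z)) :=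
    hSli.comp ε.symm ε.symm.injective
  have h1 := hI (Fintype.card S) (fun i => z (ε.symm i)) (fun i => hz _) (by
    intro q hq
    apply Fintype.linearIndependent_iff.1 hli q
    rw [← hq, map_sum]
    apply Finset.sum_congr rfl
    intro i _
    rw [W.cl_smul, hzs, hsm])
  have h2 : ∀ i, ∃ r : Fin (Fintype.card S) → ℚ,
      ∑ l, r l • ((ε.symm l : S) : W.H Z) = y i := by
    intro i
    have h3 : y i ∈ Submodule.span ℚ (Set.range (fun l => ((ε.symm l : S) : W.H Z))) := by
      have h4 : Set.range (fun l => ((ε.symm l : S) : W.H Z)) = S := by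
        ext x
        constructor
        · rintro ⟨l, rfl⟩
          exact (ε.symm l).2
        · intro hx
          refine ⟨ε ⟨x, hx⟩, ?_⟩
          change ((ε.symm (ε ⟨x, hx⟩) : S) : W.H Z) = x
          rw [Equiv.symm_apply_apply]
      rw [h4, hSspan]
      exact Submodule.subset_span ⟨i, rfl⟩
    exact (Submodule.mem_span_range_iff_exists_fun ℚ).1 h3
  choose r hr using h2
  refine ⟨Fintype.card S, fun l => ((ε.symm l : S) : W.H Z), r, ?_, ?_⟩
  · have h5 : (fun l => ((ε.symm l : S) : W.H Z)) = fun l => W.cl Z (z (ε.symm l)) := by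
      funext l
      rw [hzs]
    rw [h5]
    exact h1
  · intro i
    rw [← hr i]
    apply Finset.sum_congr rfl
    intro l _
    rw [hsm]

section Conj

variable {L : Type v} [Field L] [Algebra W.K L] [CharZero L]
  {ι : algebraicClosure ℚ L →ₐ[ℚ] ℂ}

/-- **Transport to the conjugate, in one codimension.** -/
lemma pair_eq_zero {E E' : (baseW W L).H Z →ₗ[(baseW W L).K] (baseW W L).H Z}
    (h : Pair W ι Z E E') {j : ℕ} (hI : IndependenceLifts W.K (W.cl Z) (Z.IsCyc j)) {x : W.H Z}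
    (hx : x ∈ algClasses W Z j)
    (h0 : E' ((1 : L) ⊗ₜ[W.K] x) = (0 : L ⊗[W.K] W.H Z)) :
    E ((1 : L) ⊗ₜ[W.K] x) = (0 : L ⊗[W.K] W.H Z) := by
  obtain ⟨κ, _, c, c', ρ, h1, h2, rfl, rfl⟩ := h
  obtain ⟨n, d, r, hd, hr⟩ := exists_rat_basis_at hI (fun i => ρ i x)
    (fun i => RatOp.alg (h2 i) hx)
  have key : ∀ c : κ → L, (∑ i, (show (baseW W L).K from c i) • upW L (ρ i))
      ((1 : L) ⊗ₜ[W.K] x) = (∑ l, (∑ i, c i * (r i l : L)) • ((1 : L) ⊗ₜ[W.K] d l) :
        L ⊗[W.K] W.H Z) := by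
    intro c
    rw [LinearMap.sum_apply]
    have e1 : ∀ i, ((show (baseW W L).K from c i) • upW L (ρ i)) ((1 : L) ⊗ₜ[W.K] x) =
        (∑ l, (c i * (r i l : L)) • ((1 : L) ⊗ₜ[W.K] d l) : L ⊗[W.K] W.H Z) := by
      intro i
      have e2 : ((show (baseW W L).K from c i) • upW L (ρ i)) ((1 : L) ⊗ₜ[W.K] x) =
          (c i • ((1 : L) ⊗ₜ[W.K] (ρ i x)) : L ⊗[W.K] W.H Z) := by
        have e3 : upW L (ρ i) ((1 : L) ⊗ₜ[W.K] x) = (1 : L) ⊗ₜ[W.K] (ρ i x) :=
          LinearMap.baseChange_tmul _ _ _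
        change (show (baseW W L).K from c i) • (upW L (ρ i) ((1 : L) ⊗ₜ[W.K] x)) = _
        rw [e3]
        rfl
      rw [e2, hr i, TensorProduct.tmul_sum, Finset.smul_sum]
      apply Finset.sum_congr rfl
      intro l _
      rw [TensorProduct.tmul_smul, ← algebraMap_smul L ((r i l : ℚ) : W.K), smul_smul,
        map_ratCast]
    have e4 : ∑ i, ((show (baseW W L).K from c i) • upW L (ρ i)) ((1 : L) ⊗ₜ[W.K] x) =
        (∑ i, ∑ l, (c i * (r i l : L)) • ((1 : L) ⊗ₜ[W.K] d l) : L ⊗[W.K] W.H Z) :=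
      Finset.sum_congr rfl (fun i _ => e1 i)
    refine e4.trans ?_
    rw [Finset.sum_comm]
    apply Finset.sum_congr rfl
    intro l _
    rw [Finset.sum_smul]
  have h3 : ∀ l, ∑ i, c' i * (r i l : L) = 0 := independent_base hd _ ((key c').symm.trans h0)
  refine (key c).trans ?_
  apply Finset.sum_eq_zero
  intro l _
  have h4 : CConj ι (∑ i, c i * (r i l : L)) (∑ i, c' i * (r i l : L)) :=
    CConj.sum _ (fun i _ => (h1 i).mul (CConj.rat _))
  rw [h4.left_zero (h3 l), zero_smul]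
  rfl

lemma pair_nest {n : ℕ}
    {A A' : Fin n → ((baseW W L).H X →ₗ[(baseW W L).K] (baseW W L).H X)}
    (h : ∀ i, Pair W ι X (A i) (A' i)) :
    Pair W ι (pX X Y n) (nestOp (baseW W L) n A) (nestOp (baseW W L) n A') := by
  induction n with
  | zero => exact Pair.id Y
  | succ n ih => exact Pair.ext (h 0) (ih fun i => h i.succ)

omit [Algebra W.K L] in
/-- The complex conjugate of a root, by a polynomial. -/
lemma cConj_of_poly {P Q : ℚ[X]} (hP : P ≠ 0)
    (hQ : ∀ z : ℂ, aeval z P = 0 → aeval z Q = starRingEnd ℂ z) {b : L} (hb : aeval b P = 0) :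
    CConj ι b (aeval b Q) := by
  have hal : IsAlgebraic ℚ b := ⟨P, hP, hb⟩
  obtain ⟨x, hx⟩ : ∃ x : algebraicClosure ℚ L, (x : L) = b :=
    ⟨⟨b, mem_algebraicClosure_iff.2 hal⟩, rfl⟩
  have hco : ∀ R : ℚ[X], ((aeval x R : algebraicClosure ℚ L) : L) = aeval (x : L) R := fun R =>
    (Polynomial.aeval_algebraMap_apply L x R).symm
  have h1 : aeval x P = 0 := by
    have h2 := hco P
    rw [hx, hb] at h2
    exact Subtype.ext h2
  have h3 : aeval (ι x) P = 0 := by
    rw [Polynomial.aeval_algHom_apply, h1, map_zero]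
  refine ⟨x, aeval x Q, hx, ?_, ?_⟩
  · rw [hco, hx]
  · rw [← Polynomial.aeval_algHom_apply, hQ _ h3]

/-- The projectors to conjugate eigenspaces. -/
lemma pair_ep {e π : W.H X →ₗ[W.K] W.H X} (he : e ∈ RatOp W X X) (hπ : π ∈ RatOp W X X)
    {P : ℚ[X]} {R : Finset L} {c0 : L} (hc0 : c0 ≠ 0)
    (hR : P.map (algebraMap ℚ L) = C c0 * ∏ j ∈ R, (Polynomial.X - C j)) {b b' : L} (hb : b ∈ R)
    (hb' : b' ∈ R) (h : CConj ι b b') :
    Pair W ι X (epV e π R b : L ⊗[W.K] W.H X →ₗ[L] L ⊗[W.K] W.H X)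
      (epV e π R b' : L ⊗[W.K] W.H X →ₗ[L] L ⊗[W.K] W.H X) := by
  classical
  set M := max ((bas R b).natDegree + 1) ((bas R b').natDegree + 1) with hM
  have key : ∀ b : L, (bas R b).natDegree + 1 ≤ M →
      (epV e π R b : L ⊗[W.K] W.H X →ₗ[L] L ⊗[W.K] W.H X) =
        ∑ i : Fin M, (bas R b).coeff i • ((e ^ (i : ℕ) * π : Module.End W.K (W.H X)).baseChange L :
          L ⊗[W.K] W.H X →ₗ[L] L ⊗[W.K] W.H X) := by
    intro b hb
    rw [epV_eq, ← Finset.sum_range (fun i => (bas R b).coeff i •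
      ((e ^ i * π : Module.End W.K (W.H X)).baseChange L :
          L ⊗[W.K] W.H X →ₗ[L] L ⊗[W.K] W.H X))]
    refine Finset.sum_subset (Finset.range_mono hb) fun i _ hi => ?_
    rw [Finset.mem_range, not_lt] at hi
    rw [Polynomial.coeff_eq_zero_of_natDegree_lt (by omega), zero_smul]
  refine ⟨Fin M, inferInstance, fun i => (bas R b).coeff i, fun i => (bas R b').coeff i,
    fun i => (e ^ (i : ℕ) * π : Module.End W.K (W.H X)), fun i => cConj_bas hc0 hR hb hb' h _,
    fun i => RatOp.comp (RatOp.pow he _) hπ, key b (le_max_left _ _), key b' (le_max_right _ _)⟩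

end Conj

end Run7.h152.PW
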