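import Pool.Agent.Run7.h152.PW.Wt
import Pool.Agent.Run7.h152.PW.Tup

/-!
# The injectivity conjecture implies the conjecture D for powers
-/

set_option autoImplicit false

open CategoryTheory AlgebraicGeometry TensorProduct Polynomial

universe u v w

namespace Run7.h152.PW

open Pool.Agent.H914 Pool.Agent.H914.VarClass Pool.Agent.H914.VarClass.Obj
  Pool.Agent.H914.WeilCohomology Pool.Agent.R908 Pool.Agent.N180.Cf Run7.h152.LI

variable {k : Type u} [Field k] {𝒱 : VarClass k} {ops : CycleOps 𝒱}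
  {W : WeilCohomology.{u, v} ops} {X Y Z : 𝒱.Obj} {𝒢 : Set (Symmetry W)} {D : X.Cycles}
  {E : (X.prod X).Cycles} {P Q : ℚ[X]}

lemma IsConjugation.sign (h : IsConjugation 𝒢 X D E P Q) : SignOpAlgebraic W X := by
  have h1 : par (W.isInternal X) ∈ KOp W X X 0 := by
    rw [par, scal_eq_sum (W.isInternal X) (N := 2 * X.dim + 1) W_hbd]
    exact Submodule.sum_mem _ fun i _ => Submodule.smul_mem _ _ (rop_kop (h.proj_rop i))
  obtain ⟨γ, hγ, he⟩ := mem_KOp_iff.1 h1
  rw [add_zero] at hγ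
  refine ⟨_, ⟨γ, hγ, rfl⟩, fun i a ha => ?_⟩
  rw [he, par, scal_apply _ _ ha]

lemma comm_proj {e : W.H X →ₗ[W.K] W.H X} (he : e ∈ KOp W X X 0) (i : ℕ) :
    e ∘ₗ proj (W.isInternal X) i = proj (W.isInternal X) i ∘ₗ e := by
  apply gr_ext (W.isInternal X)
  intro j a ha
  rw [LinearMap.comp_apply, LinearMap.comp_apply]
  by_cases hj : j = i
  · subst hj
    rw [proj_same _ ha, proj_same _ (Mot.hom_deg0 he ha)]
  · rw [proj_ne _ ha hj, proj_ne _ (Mot.hom_deg0 he ha) hj, map_zero]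

section Ep

variable {L : Type v} [Field L] [Algebra W.K L]

/-- Polynomials in the operator on the component. -/
lemma ep_aeval {e π : W.H X →ₗ[W.K] W.H X} (hc : e ∘ₗ π = π ∘ₗ e) {P : W.K[X]}
    (hP : aeval (e : Module.End W.K (W.H X)) P ∘ₗ π = 0) {R : Finset L}
    (hR : ∃ c : L, c ≠ 0 ∧ P.map (algebraMap W.K L) = C c * ∏ j ∈ R, (Polynomial.X - C j)) (b : L)
    (g : W.K[X]) (x : W.H X) :
    epV e π R b ((1 : L) ⊗ₜ[W.K] (aeval (e : Module.End W.K (W.H X)) g x)) =
      aeval b g • epV e π R b ((1 : L) ⊗ₜ[W.K] x) := by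
  induction g using Polynomial.induction_on' generalizing x with
  | add p q hp hq =>
    rw [map_add, LinearMap.add_apply, TensorProduct.tmul_add, map_add, hp, hq, map_add, add_smul]
  | monomial n a =>
    induction n generalizing x with
    | zero =>
      rw [monomial_zero_left, aeval_C, aeval_C, Module.algebraMap_end_apply,
        TensorProduct.tmul_smul, ← algebraMap_smul L a, map_smul]
    | succ n ih =>
      have h1 : aeval (e : Module.End W.K (W.H X)) (monomial (n + 1) a) x =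
          aeval (e : Module.End W.K (W.H X)) (monomial n a) (e x) := by
        rw [← monomial_mul_X, map_mul, aeval_X, Module.End.mul_apply]
      have h2 : aeval b (monomial (n + 1) a) = aeval b (monomial n a) * b := by
        rw [← monomial_mul_X, map_mul, aeval_X]
      rw [h1, ih, h2, mul_smul, ← epV_frob hc hP hR, LinearMap.baseChange_tmul]

end Ep

/-- The class of a numerically trivial cycle on `X ^ n × Y` has positive weight. -/
lemma exists_filtration (h : IsConjugation 𝒢 X D E P Q) {𝒴 : Set 𝒱.Obj}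
    (hY : ∀ Z, IsProductOf 𝒴 Z → HomEqNum W Z) (hYY : IsProductOf 𝒴 Y) (n : ℕ) :
    ∃ F : ℝ → Submodule W.K (W.H X), IsWeightFiltration W X F ∧
      ∀ (j : ℕ) (z : (pX X Y n).Cycles), (pX X Y n).IsCyc j z →
        (∀ w, (pX X Y n).IsCyc ((pX X Y n).dim - j) w →
          (pX X Y n).V.degCycle (ops.mul z w) = 0) →
        ∃ s : ℝ, 0 < s ∧ W.cl (pX X Y n) z ∈ prodFil W F Y n s := by
  obtain ⟨F, hF, hdet, -⟩ := weightFiltration W X h.sign 𝒴 hY (max n 3) (le_max_right _ _)
  refine ⟨F, hF, fun j z hz hnum => ?_⟩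
  have hα : W.cl _ z ∈ spanCycles W (pX X Y n) j := Submodule.subset_span ⟨j, rfl, z, hz, rfl⟩
  obtain ⟨s, hs, h1⟩ := (hdet n (le_max_left _ _) Y hYY (pX X Y n) (𝟙 _) (IsDominating.id _) j _
    hα).2.1 (numZero_iff.2 (numTriv_of_deg (W := W) hz hnum))
  refine ⟨s, hs, ?_⟩
  rw [W.map_id] at h1
  exact h1

/-- **The injectivity conjecture implies the conjecture D for `X ^ n × Y`.** -/
theorem homEqNumAt_of_injective {𝒴 : Set 𝒱.Obj} (h : IsConjugation 𝒢 X D E P Q)
    (hY : ∀ Z, IsProductOf 𝒴 Z → HomEqNum W Z) (hYY : IsProductOf 𝒴 Y) {n j : ℕ}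
    (hI : InjectiveAt W (pX X Y n) j) : HomEqNumAt W (pX X Y n) j := by
  classical
  rintro z ⟨-, hz, hnum⟩
  by_contra hne
  obtain ⟨F, hF, hpos⟩ := exists_filtration h hY hYY n
  obtain ⟨s, hs, hzs⟩ := hpos j z hz hnum
  set L := AlgebraicClosure W.K with hL
  have hchar : CharZero L := charZero_of_injective_algebraMap (algebraMap W.K L).injective
  obtain ⟨Φ⟩ := exists_factors W.K L h.squarefree h.conj
  obtain ⟨w, hw, hbar⟩ := exists_weights hF h Φ
  obtain ⟨R, hRm, c0, hc0, hR⟩ := Pool.Agent.R908.exists_roots (L := L) h.squarefree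
  obtain ⟨ι⟩ := exists_emb L
  set e : W.H X →ₗ[W.K] W.H X := opE W E with he
  set π : ℕ → (W.H X →ₗ[W.K] W.H X) := fun i => proj (W.isInternal X) i with hπ
  have hRK : ∃ c : L, c ≠ 0 ∧ (P.map (algebraMap ℚ W.K)).map (algebraMap W.K L) =
      C c * ∏ j ∈ R, (Polynomial.X - C j) := by
    refine ⟨c0, hc0, ?_⟩
    rw [Polynomial.map_map, ← hR]
    congr 1
  have hcm : ∀ i, e ∘ₗ π i = π i ∘ₗ e := fun i => comm_proj h.e_kop i
  have hid : ∀ i, π i ∘ₗ π i = π i := by
    intro i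
    apply LinearMap.ext
    intro x
    rw [LinearMap.comp_apply]
    exact proj_same _ (proj_mem _ _ _)
  have hPz : ∀ i, aeval (e : Module.End W.K (W.H X)) (P.map (algebraMap ℚ W.K)) ∘ₗ π i = 0 := by
    intro i
    apply LinearMap.ext
    intro x
    exact h.zero _
  -- the operators
  set J := Fin (2 * X.dim + 1) × {b : L // b ∈ R} with hJ
  set A : J → ((baseW W L).H X →ₗ[(baseW W L).K] (baseW W L).H X) := fun a =>
    (epV e (π a.1) R a.2.1 : L ⊗[W.K] W.H X →ₗ[L] L ⊗[W.K] W.H X) with hA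
  have hsum : ∑ a, A a = LinearMap.id := by
    apply LinearMap.ext
    intro (x : L ⊗[W.K] W.H X)
    rw [LinearMap.sum_apply]
    have e1 : ∑ a : J, A a x = ∑ i : Fin (2 * X.dim + 1), ∑ b : {b : L // b ∈ R},
        (epV e (π i) R b.1 x : L ⊗[W.K] W.H X) := Fintype.sum_prod_type _
    have e2 : ∀ i : Fin (2 * X.dim + 1), ∑ b : {b : L // b ∈ R},
        (epV e (π i) R b.1 x : L ⊗[W.K] W.H X) = (π i).baseChange L x := by
      intro i
      rw [epV_sum (hPz i) hRK x]
      exact Finset.sum_coe_sort R (fun b => (epV e (π i) R b x : L ⊗[W.K] W.H X))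
    have e3 : ∑ i : Fin (2 * X.dim + 1), ((π i).baseChange L x : L ⊗[W.K] W.H X) = x := by
      have h1 : ∑ i ∈ Finset.range (2 * X.dim + 1), π i = LinearMap.id :=
        sum_proj (W.isInternal X) W_hbd
      have h2 : (∑ i ∈ Finset.range (2 * X.dim + 1), π i).baseChange L x = x := by
        rw [h1, LinearMap.baseChange_id]
        rfl
      have h3 : ∀ S : Finset ℕ, (∑ i ∈ S, π i).baseChange L = ∑ i ∈ S, (π i).baseChange L := by
        intro S
        induction S using Finset.induction_on with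
        | empty => rw [Finset.sum_empty, Finset.sum_empty, LinearMap.baseChange_zero]
        | insert a S ha ih =>
          rw [Finset.sum_insert ha, Finset.sum_insert ha, LinearMap.baseChange_add, ih]
      rw [h3, LinearMap.sum_apply, Finset.sum_range] at h2
      exact h2
    exact e1.trans ((Finset.sum_congr rfl fun i _ => e2 i).trans e3)
  -- labels
  have hRP : ∀ b ∈ R, aeval b (P.map (algebraMap ℚ W.K)) = 0 := by
    intro b hb
    rw [Polynomial.aeval_map_algebraMap]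
    exact (hRm b).1 hb
  have hlab : ∀ b : {b : L // b ∈ R}, ∃ l, aeval b.1 (Φ.f l) = 0 := fun b =>
    Φ.exists_label b.1 (hRP b.1 b.2)
  choose lab hlab using hlab
  -- the bound
  have hbound : ∀ (a : J) (t : ℝ), ∀ x ∈ F t,
      A a ((1 : L) ⊗ₜ[W.K] x) ≠ (0 : L ⊗[W.K] W.H X) → t ≤ w a.1 (lab a.2) := by
    intro a t x hx hax
    set x' := aeval (opE W E) (Φ.g (lab a.2)) (π a.1 x) with hx'
    have h1 : x' ∈ F t :=
      stable_kop0 hF (h.poly_kop _) (stable_kop0 hF (rop_kop (h.proj_rop _)) hx)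
    have h2 : x' ∈ kerAt (opE W E) (Φ.f (lab a.2)) a.1 := by
      rw [mem_kerAt]
      exact ⟨Mot.hom_deg0 (h.poly_kop _) (proj_mem _ _ _), block_zero h Φ _ _⟩
    have h3 : x' ≠ 0 := by
      intro h0
      apply hax
      have h4 := ep_aeval (hcm a.1) (hPz a.1) hRK a.2.1 (Φ.g (lab a.2)) (π a.1 x)
      rw [Φ.g_one _ _ (hlab a.2), one_smul] at h4
      have h5 : epV e (π a.1) R a.2.1 ((1 : L) ⊗ₜ[W.K] (π a.1 x)) =
          epV e (π a.1) R a.2.1 ((1 : L) ⊗ₜ[W.K] x) := by
        rw [← epV_right (F := e) (R := R) (hid a.1) a.2.1 ((1 : L) ⊗ₜ[W.K] x),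
          LinearMap.baseChange_tmul]
      have h6 : (epV e (π a.1) R a.2.1 ((1 : L) ⊗ₜ[W.K] x) : L ⊗[W.K] W.H X) = 0 := by
        rw [← h5, ← h4]
        have h7 : aeval (e : Module.End W.K (W.H X)) (Φ.g (lab a.2)) (π a.1 x) = 0 := h0
        rw [h7, TensorProduct.tmul_zero, map_zero]
      exact h6
    exact (hw a.1 (lab a.2) x' h2 h3).2 t h1
  -- a component which is not zero
  have hzL : ((1 : L) ⊗ₜ[W.K] (W.cl (pX X Y n) z) : L ⊗[W.K] W.H (pX X Y n)) ≠ 0 := by
    intro h0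
    apply hne
    obtain ⟨f, hf⟩ := Module.Projective.exists_dual_eq_one W.K (one_ne_zero : (1 : L) ≠ 0)
    have h1 := congrArg (coef f) h0
    rwa [map_zero, coef_tmul, hf, one_smul] at h1
  obtain ⟨τ, hτ⟩ := exists_nestOp (W := baseW W L) (Y := Y) A hsum hzL
  -- the conjugates
  have hcj : ∀ b : {b : L // b ∈ R}, ∃ b' : {b : L // b ∈ R}, CConj ι b.1 b'.1 ∧
      lab b' = Φ.bar (lab b) := by
    intro b
    have hb := (hRm b.1).1 b.2
    have hb' : aeval b.1 Q ∈ R := (hRm _).2 (root_conj h.squarefree h.conj hb)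
    refine ⟨⟨_, hb'⟩, ?_, ?_⟩
    · exact cConj_of_poly h.squarefree.ne_zero h.conj hb
    · refine Φ.unique (aeval b.1 Q) _ _ (hlab ⟨_, hb'⟩) ?_
      have h1 := Φ.bar_root _ _ (hlab b)
      rwa [Polynomial.aeval_map_algebraMap] at h1
  choose cj hcj1 hcj2 using hcj
  have hpair : Pair W ι (pX X Y n) (nestOp (baseW W L) n fun i => A (τ i))
      (nestOp (baseW W L) n fun i => A ((τ i).1, cj (τ i).2)) := by
    refine pair_nest fun i => ?_
    exact pair_ep h.e_rat (rop_rat (h.proj_rop _)) hc0 hR (τ i).2.2 (cj (τ i).2).2 (hcj1 _)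
  have hτ' : nestOp (baseW W L) n (fun i => A ((τ i).1, cj (τ i).2))
      ((1 : L) ⊗ₜ[W.K] (W.cl (pX X Y n) z)) ≠ (0 : L ⊗[W.K] W.H (pX X Y n)) := by
    intro h0
    exact hτ (pair_eq_zero hpair hI ⟨z, hz, rfl⟩ h0)
  have h1 := le_of_nestOp (fun i => A (τ i)) (fun i => w (τ i).1 (lab (τ i).2))
    (fun i => hbound (τ i)) hzs hτ
  have h2 := le_of_nestOp (fun i => A ((τ i).1, cj (τ i).2))
    (fun i => w (τ i).1 (lab (cj (τ i).2))) (fun i => hbound ((τ i).1, cj (τ i).2)) hzs hτ'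
  have h3 : ∑ i, w (τ i).1 (lab (cj (τ i).2)) = -∑ i, w (τ i).1 (lab (τ i).2) := by
    rw [← Finset.sum_neg_distrib]
    refine Finset.sum_congr rfl fun i _ => ?_
    rw [hcj2, hbar]
  rw [h3] at h2
  linarith

end Run7.h152.PW
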