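import Pool.Agent.Run7.h152.PW.Defs
import Pool.Agent.Run7.h152.LI.Block
import Pool.Agent.N180.CfL

/-!
# The weights of the kernels
-/

set_option autoImplicit false

open CategoryTheory AlgebraicGeometry Polynomial

universe u v w

namespace Run7.h152.PW

open Pool.Agent.H914 Pool.Agent.H914.VarClass Pool.Agent.H914.VarClass.Obj
  Pool.Agent.H914.WeilCohomology Pool.Agent.R908 Pool.Agent.N180.Cf Run7.h152.LI

variable {k : Type u} [Field k] {𝒱 : VarClass k} {ops : CycleOps 𝒱}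
  {W : WeilCohomology.{u, v} ops} {X : 𝒱.Obj} {F : ℝ → Submodule W.K (W.H X)}

lemma stable_kop (hF : IsWeightFiltration W X F) {d : ℤ} (hd : 0 ≤ (X.dim : ℤ) + d)
    {φ : W.H X →ₗ[W.K] W.H X} (hφ : φ ∈ KOp W X X d) {t : ℝ} {x : W.H X} (hx : x ∈ F t) :
    φ x ∈ F t := by
  obtain ⟨γ, hγ, rfl⟩ := mem_KOp_iff.1 hφ
  obtain ⟨p, hp⟩ := Int.eq_ofNat_of_zero_le hd
  rw [hp] at hγ
  exact hF.corr p _ ⟨γ, hγ, rfl⟩ t x hx

lemma stable_kop0 (hF : IsWeightFiltration W X F) {φ : W.H X →ₗ[W.K] W.H X}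
    (hφ : φ ∈ KOp W X X 0) {t : ℝ} {x : W.H X} (hx : x ∈ F t) : φ x ∈ F t :=
  stable_kop hF (by omega) hφ hx

lemma rop_kop {d : ℤ} {y : Module.End W.K (W.H X)} (h : ROp W X d y) : y ∈ KOp W X X d :=
  mem_KS_iff.1 (Submodule.subset_span h)

lemma rop_rat {y : Module.End W.K (W.H X)} (h : ROp W X 0 y) : y ∈ RatOp W X X := by
  obtain ⟨Y, ⟨q, hq, z, hz, hY⟩ | ⟨hd, _⟩, rfl⟩ := h
  · obtain rfl : q = X.dim := by omega
    exact ⟨z, hz, (hY W).symm⟩
  · omega

variable {𝒢 : Set (Symmetry W)} {D : X.Cycles} {E : (X.prod X).Cycles} {P Q : ℚ[X]}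

/-- The operator of the cycle `E`. -/
noncomputable abbrev opE (W : WeilCohomology.{u, v} ops) {X : 𝒱.Obj} (E : (X.prod X).Cycles) :
    Module.End W.K (W.H X) :=
  W.corr (W.cl (X.prod X) E)

namespace IsConjugation

variable (h : IsConjugation 𝒢 X D E P Q)
include h

lemma e_rat : opE W E ∈ RatOp W X X := ⟨E, h.cycle, rfl⟩

lemma e_kop : opE W E ∈ KOp W X X 0 := RatOp.mem h.e_rat

lemma poly_kop (f : W.K[X]) : aeval (opE W E) f ∈ KOp W X X 0 := KOp.aevalE h.e_kop f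

lemma squarefree : Squarefree P := h.conjugate.1.1

lemma conj : ∀ z : ℂ, aeval z P = 0 → aeval z Q = starRingEnd ℂ z := h.conjugate.1.2

lemma zero (x : W.H X) : aeval (opE W E) (P.map (algebraMap ℚ W.K)) x = 0 :=
  h.conjugate.2.1 x Submodule.mem_top

lemma adj (x y : W.H X) : W.tr X (opE W E x * y) =
    W.tr X (x * aeval (opE W E) (Q.map (algebraMap ℚ W.K)) y) :=
  h.conjugate.2.2 x Submodule.mem_top y Submodule.mem_top

lemma exists_lam : ∃ Λ : Module.End W.K (W.H X), ROp W X (-1) Λ ∧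
    IsLam (W.gr X) X.dim (LinearMap.mulLeft W.K (W.cl X D)) Λ :=
  lefschetzB_iff_rop.1 h.lefschetzB

lemma proj_rop (i : ℕ) : ROp W X 0 (proj (W.isInternal X) i) := by
  obtain ⟨Λ, hΛ, hLam⟩ := h.exists_lam
  exact rop_opAlg.proj_mem (W.isInternal X) W_hbd (rop_mulLeft h.divisor) h.hardLefschetz hΛ hLam i

lemma adj_poly (R : W.K[X]) (x y : W.H X) : W.tr X (aeval (opE W E) R x * y) =
    W.tr X (x * aeval (opE W E) (R.comp (Q.map (algebraMap ℚ W.K))) y) := by
  induction R using Polynomial.induction_on' generalizing x y with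
  | add R S hR hS =>
    rw [map_add, LinearMap.add_apply, add_mul, map_add, hR, hS, add_comp, map_add,
      LinearMap.add_apply, mul_add, map_add]
  | monomial n a =>
    induction n generalizing x y with
    | zero =>
      rw [monomial_zero_left, C_comp, aeval_C, Module.algebraMap_end_apply,
        Module.algebraMap_end_apply, smul_mul_assoc, mul_smul_comm]
    | succ n ih =>
      have h1 : aeval (opE W E) (monomial (n + 1) a) x =
          aeval (opE W E) (monomial n a) (opE W E x) := by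
        rw [← monomial_mul_X, map_mul, aeval_X, Module.End.mul_apply]
      have h2 : aeval (opE W E) ((monomial (n + 1) a).comp (Q.map (algebraMap ℚ W.K))) y =
          aeval (opE W E) (Q.map (algebraMap ℚ W.K))
            (aeval (opE W E) ((monomial n a).comp (Q.map (algebraMap ℚ W.K))) y) := by
        rw [← monomial_mul_X, mul_comp, X_comp, mul_comm, map_mul, Module.End.mul_apply]
      rw [h1, h2, ih, h.adj]

end IsConjugation

/-- The kernel of `f(e)` on `H^i(X)`. -/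
noncomputable def kerAt (e : Module.End W.K (W.H X)) (f : W.K[X]) (i : ℕ) :
    Submodule W.K (W.H X) :=
  W.gr X i ⊓ LinearMap.ker (aeval e f)

lemma mem_kerAt {e : Module.End W.K (W.H X)} {f : W.K[X]} {i : ℕ} {x : W.H X} :
    x ∈ kerAt e f i ↔ x ∈ W.gr X i ∧ aeval e f x = 0 := by
  rw [kerAt, Submodule.mem_inf, LinearMap.mem_ker]

/-- The number `w` is the weight of all nonzero elements of `V`. -/
def HasWeight (F : ℝ → Submodule W.K (W.H X)) (V : Submodule W.K (W.H X)) (w : ℝ) : Prop :=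
  ∀ x ∈ V, x ≠ 0 → x ∈ F w ∧ ∀ t, x ∈ F t → t ≤ w

lemma HasWeight.mem {V : Submodule W.K (W.H X)} {w : ℝ} (h : HasWeight F V w) {x : W.H X}
    (hx : x ∈ V) : x ∈ F w := by
  by_cases h0 : x = 0
  · rw [h0]; exact Submodule.zero_mem _
  · exact (h x hx h0).1

lemma HasWeight.unique {V : Submodule W.K (W.H X)} {w w' : ℝ} (h : HasWeight F V w)
    (h' : HasWeight F V w') {x : W.H X} (hx : x ∈ V) (hx0 : x ≠ 0) : w = w' :=
  le_antisymm ((h' x hx hx0).2 _ (h x hx hx0).1) ((h x hx hx0).2 _ (h' x hx hx0).1)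

/-- **The kernels have weights.** -/
theorem exists_weight (hF : IsWeightFiltration W X F) (h : IsConjugation 𝒢 X D E P Q) {f : W.K[X]}
    (hf : Irreducible f) (hfP : f ∣ P.map (algebraMap ℚ W.K)) (i : ℕ) :
    ∃ w : ℝ, HasWeight F (kerAt (opE W E) f i) w := by
  by_cases hex : ∃ x ∈ kerAt (opE W E) f i, x ≠ 0
  · obtain ⟨x₀, hx₀, hne⟩ := hex
    obtain ⟨S, hS⟩ := hF.isFiltration.jumps
    obtain ⟨s, -, hs, hs'⟩ := hS x₀ hne
    have key : ∀ t, ∀ x ∈ kerAt (opE W E) f i, x ≠ 0 → x ∈ F t →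
        ∀ y ∈ kerAt (opE W E) f i, y ∈ F t := by
      intro t x hx hx0 hxt y hy
      rw [mem_kerAt] at hx hy
      refine (h.irreducible i f hf hfP (F t ⊓ W.gr X i) inf_le_right ?_ ?_ ⟨x, ⟨hxt, hx.1⟩, hx0,
        hx.2⟩ y hy.1 hy.2).1
      · rintro _ ⟨z, hz, rfl⟩ a ⟨ha, ha'⟩
        have h1 : W.corr (W.cl (X.prod X) z) ∈ KOp W X X 0 :=
          KOp.gen (by rw [add_zero]) hz
        exact ⟨stable_kop0 hF h1 ha, Mot.hom_deg0 h1 ha'⟩
      · rintro _ ⟨σ, hσ, rfl⟩ a ⟨ha, ha'⟩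
        exact ⟨hF.symm _ ⟨σ, rfl⟩ t a ha, ((σ.sim X).gr i a).2 ha'⟩
    refine ⟨s, fun x hx hx0 => ⟨key s x₀ hx₀ hne hs x hx, fun t ht => ?_⟩⟩
    exact hs' t (key t x hx hx0 ht x₀ hx₀)
  · push Not at hex
    exact ⟨0, fun x hx hx0 => absurd (hex x hx) hx0⟩

section Dual

variable {Ω : Type w} [Field Ω] [Algebra W.K Ω] [IsAlgClosed Ω]

lemma self_of_ker (Φ : Factors W.K Ω P Q) {e : Module.End W.K (W.H X)} {l : Fin Φ.N} {x : W.H X}
    (hx : aeval e (Φ.f l) x = 0) : aeval e (Φ.g l) x = x := by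
  have h1 : Φ.f l ∣ Φ.g l - 1 := by
    refine dvd_of_roots (E := Ω) (Φ.irr l).squarefree fun a ha => ?_
    rw [map_sub, Φ.g_one a l ha, map_one, sub_self]
  have h2 := aeval_zero_of_dvd h1 hx
  rw [map_sub, map_one, LinearMap.sub_apply, Module.End.one_apply, sub_eq_zero] at h2
  exact h2

lemma block_zero (h : IsConjugation 𝒢 X D E P Q) (Φ : Factors W.K Ω P Q) (l : Fin Φ.N)
    (x : W.H X) : aeval (opE W E) (Φ.f l) (aeval (opE W E) (Φ.g l) x) = 0 := by
  have h2 := Φ.aeval_eq h.squarefree (h.zero x) (R := Φ.f l * Φ.g l) (S := 0) (by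
    intro a l'' _ hl''
    rw [map_mul, map_zero]
    by_cases hll : l = l''
    · subst hll
      rw [hl'', zero_mul]
    · rw [Φ.g_zero a l l'' hll hl'', mul_zero])
  rw [map_mul, map_zero, Module.End.mul_apply] at h2
  exact h2

lemma block_adj (h : IsConjugation 𝒢 X D E P Q) (Φ : Factors W.K Ω P Q) (l : Fin Φ.N)
    (x y : W.H X) : W.tr X (aeval (opE W E) (Φ.g l) x * y) =
      W.tr X (x * aeval (opE W E) (Φ.g (Φ.bar l)) y) := by
  rw [h.adj_poly]
  congr 2
  refine Φ.aeval_eq h.squarefree (h.zero y) fun a l' ha hl' => ?_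
  rw [aeval_comp]
  have h2 := Φ.bar_root a l' hl'
  by_cases hll : l = Φ.bar l'
  · subst hll
    rw [Φ.involutive, Φ.g_one _ _ hl']
    exact Φ.g_one _ _ h2
  · have h3 : Φ.bar l ≠ l' := fun h3 => hll (by rw [← h3, Φ.involutive])
    rw [Φ.g_zero a _ l' h3 hl']
    exact Φ.g_zero _ l _ hll h2

lemma tr_proj {i : ℕ} (hi : i ≤ 2 * X.dim) {x : W.H X} (hx : x ∈ W.gr X i) (y : W.H X) :
    W.tr X (x * y) = W.tr X (x * proj (W.isInternal X) (2 * X.dim - i) y) := by
  refine gr_induction (W.isInternal X) (p := fun y => W.tr X (x * y) =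
    W.tr X (x * proj (W.isInternal X) (2 * X.dim - i) y)) ?_ ?_ y
  · intro j a ha
    by_cases hj : j = 2 * X.dim - i
    · subst hj
      rw [proj_same _ ha]
    · rw [proj_ne _ ha hj, mul_zero, map_zero]
      exact W.tr_eq_zero (W.mul_mem hx ha) (by omega)
  · intro a b ha hb
    rw [mul_add, map_add, ha, hb, map_add, mul_add, map_add]

lemma tr_zero_comm {i j : ℕ} {x y : W.H X} (hx : x ∈ W.gr X i) (hy : y ∈ W.gr X j)
    (h : W.tr X (x * y) = 0) : W.tr X (y * x) = 0 := by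
  rw [W.comm hy hx, map_smul, h, smul_zero]

/-- **Duality of the weights.** -/
theorem weight_dual (hF : IsWeightFiltration W X F) (h : IsConjugation 𝒢 X D E P Q)
    (Φ : Factors W.K Ω P Q) {i : ℕ} (hi : i ≤ 2 * X.dim) {l : Fin Φ.N} {w w' : ℝ}
    (hw : HasWeight F (kerAt (opE W E) (Φ.f l) i) w)
    (hw' : HasWeight F (kerAt (opE W E) (Φ.f (Φ.bar l)) (2 * X.dim - i)) w') {x : W.H X}
    (hx : x ∈ kerAt (opE W E) (Φ.f l) i) (hx0 : x ≠ 0) :
    w' = -w ∧ ∃ y ∈ kerAt (opE W E) (Φ.f (Φ.bar l)) (2 * X.dim - i), y ≠ 0 := by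
  have hproj : ∀ j, proj (W.isInternal X) j ∈ KOp W X X 0 := fun j => rop_kop (h.proj_rop j)
  -- the component of `y`
  set co : W.H X → W.H X := fun y => aeval (opE W E) (Φ.g (Φ.bar l))
    (proj (W.isInternal X) (2 * X.dim - i) y) with hco
  have hcom : ∀ y, co y ∈ kerAt (opE W E) (Φ.f (Φ.bar l)) (2 * X.dim - i) := by
    intro y
    rw [mem_kerAt]
    exact ⟨Mot.hom_deg0 (h.poly_kop _) (proj_mem _ _ _), block_zero h Φ _ _⟩
  have hcoF : ∀ {t : ℝ} {y : W.H X}, y ∈ F t → co y ∈ F t := fun hy =>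
    stable_kop0 hF (h.poly_kop _) (stable_kop0 hF (hproj _) hy)
  have hcot : ∀ x ∈ kerAt (opE W E) (Φ.f l) i, ∀ y, W.tr X (x * y) = W.tr X (x * co y) := by
    intro x hx y
    rw [mem_kerAt] at hx
    rw [tr_proj hi hx.1 y, hco]
    beta_reduce
    rw [← block_adj h, self_of_ker Φ hx.2]
  obtain ⟨y, hy⟩ : ∃ y, W.tr X (x * y) ≠ 0 := by
    by_contra hcon
    push Not at hcon
    exact hx0 (W.nondeg x hcon)
  have hy' : W.tr X (x * co y) ≠ 0 := by rwa [← hcot x hx]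
  have hco0 : co y ≠ 0 := by
    intro h0
    rw [h0, mul_zero, map_zero] at hy'
    exact hy' rfl
  refine ⟨le_antisymm ?_ ?_, co y, hcom y, hco0⟩
  · by_contra hcon
    push Not at hcon
    apply hy'
    have h1 := (hF.isSelfDual w x).1 (hw x hx hx0).1 w' hcon (co y) (hw' _ (hcom y) hco0).1
    exact tr_zero_comm (mem_kerAt.1 (hcom y)).1 (mem_kerAt.1 hx).1 h1
  · have h1 : x ∈ F (-w') := by
      rw [hF.isSelfDual]
      intro s hs y hy
      rw [neg_neg] at hs
      have h2 : co y = 0 := by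
        by_contra hne
        exact absurd ((hw' _ (hcom y) hne).2 s (hcoF hy)) (not_le.2 hs)
      have h3 : W.tr X (x * y) = 0 := by rw [hcot x hx, h2, mul_zero, map_zero]
      -- the other order
      have h4 : W.tr X (y * x) = W.tr X (proj (W.isInternal X) (2 * X.dim - i) y * x) := by
        refine gr_induction (W.isInternal X) (p := fun y => W.tr X (y * x) =
          W.tr X (proj (W.isInternal X) (2 * X.dim - i) y * x)) ?_ ?_ y
        · intro j a ha
          by_cases hj : j = 2 * X.dim - i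
          · subst hj
            rw [proj_same _ ha]
          · rw [proj_ne _ ha hj, zero_mul, map_zero]
            exact W.tr_eq_zero (W.mul_mem ha (mem_kerAt.1 hx).1) (by omega)
        · intro a b ha hb
          rw [add_mul, map_add, ha, hb, map_add, add_mul, map_add]
      rw [h4]
      refine tr_zero_comm (mem_kerAt.1 hx).1 (proj_mem _ _ _) ?_
      rw [← tr_proj hi (mem_kerAt.1 hx).1, h3]
    have h2 := (hw x hx hx0).2 _ h1
    linarith

/-- Powers of the Lefschetz operator. -/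
lemma lef_comm (h : IsConjugation 𝒢 X D E P Q) (f : W.K[X]) (c : ℕ) (x : W.H X) :
    aeval (opE W E) f (((LinearMap.mulLeft W.K (W.cl X D)) ^ c) x) =
      ((LinearMap.mulLeft W.K (W.cl X D)) ^ c) (aeval (opE W E) f x) := by
  have h1 : Commute (opE W E) (LinearMap.mulLeft W.K (W.cl X D)) := by
    apply LinearMap.ext
    intro y
    exact h.commutes y
  have h2 : Commute (aeval (opE W E) f) ((LinearMap.mulLeft W.K (W.cl X D)) ^ c) := by
    refine Commute.pow_right ?_ c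
    induction f using Polynomial.induction_on' with
    | add p q hp hq => rw [map_add]; exact hp.add_left hq
    | monomial n b =>
      rw [aeval_monomial]
      exact (Algebra.commute_algebraMap_left b _).mul_left (h1.pow_left n)
  exact congrArg (fun G : Module.End W.K (W.H X) => G x) h2

/-- **The weights of the kernels in complementary degrees.** -/
theorem weight_lef (hF : IsWeightFiltration W X F) (h : IsConjugation 𝒢 X D E P Q) {f : W.K[X]}
    {i : ℕ} (hi : i ≤ X.dim) {w w' : ℝ} (hw : HasWeight F (kerAt (opE W E) f i) w)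
    (hw' : HasWeight F (kerAt (opE W E) f (2 * X.dim - i)) w') :
    (∀ x ∈ kerAt (opE W E) f i, x ≠ 0 → w = w' ∧
      ∃ y ∈ kerAt (opE W E) f (2 * X.dim - i), y ≠ 0) ∧
    ((∃ y ∈ kerAt (opE W E) f (2 * X.dim - i), y ≠ 0) → ∃ x ∈ kerAt (opE W E) f i, x ≠ 0) := by
  obtain ⟨Λ, hΛ, hLam⟩ := h.exists_lam
  set c := X.dim - i with hc
  set L : Module.End W.K (W.H X) := LinearMap.mulLeft W.K (W.cl X D) with hL
  have hLr : ROp W X 1 L := rop_mulLeft h.divisor
  have hLc : L ^ c ∈ KOp W X X (c : ℤ) := rop_kop (rop_opAlg.cast (rop_opAlg.pow hLr c) (by ring))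
  have hΛc : Λ ^ c ∈ KOp W X X (-(c : ℤ)) :=
    rop_kop (rop_opAlg.cast (rop_opAlg.pow hΛ c) (by ring))
  have hLh : IsHom (W.gr X) 2 L := by simpa using rop_opAlg.hom hLr
  have hgr : ∀ {x}, x ∈ W.gr X i → (L ^ c) x ∈ W.gr X (2 * X.dim - i) := by
    intro x hx
    have := pow_L_mem hLh hx c
    rwa [show i + 2 * c = 2 * X.dim - i by omega] at this
  have hinv : ∀ {x}, x ∈ W.gr X i → (Λ ^ c) ((L ^ c) x) = x := by
    intro x hx
    refine lam_pow_L_pow hLh W_hbd h.hardLefschetz hLam (by omega) ?_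
    rwa [show X.dim - c = i by omega]
  constructor
  · intro x hx hx0
    have hx' := mem_kerAt.1 hx
    have hy : (L ^ c) x ∈ kerAt (opE W E) f (2 * X.dim - i) := by
      rw [mem_kerAt]
      exact ⟨hgr hx'.1, by rw [hL, lef_comm h, hx'.2, map_zero]⟩
    have hy0 : (L ^ c) x ≠ 0 := by
      intro h0
      apply hx0
      rw [← hinv hx'.1, h0, map_zero]
    refine ⟨le_antisymm ?_ ?_, _, hy, hy0⟩
    · exact (hw' _ hy hy0).2 _ (stable_kop hF (by omega) hLc (hw x hx hx0).1)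
    · refine (hw x hx hx0).2 _ ?_
      rw [← hinv hx'.1]
      exact stable_kop hF (by omega) hΛc (hw' _ hy hy0).1
  · rintro ⟨y, hy, hy0⟩
    have hy' := mem_kerAt.1 hy
    obtain ⟨hinj, hsurj⟩ := h.hardLefschetz i hi
    obtain ⟨x, hx, hxy⟩ := hsurj y hy'.1
    refine ⟨x, mem_kerAt.2 ⟨hx, ?_⟩, ?_⟩
    · refine hinj _ (Mot.hom_deg0 (h.poly_kop f) hx) ?_
      rw [← lef_comm h, hxy, hy'.2]
    · rintro rfl
      rw [map_zero] at hxy
      exact hy0 hxy.symm

/-- **The weights of conjugate kernels are opposite.** -/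
theorem weight_bar (hF : IsWeightFiltration W X F) (h : IsConjugation 𝒢 X D E P Q)
    (Φ : Factors W.K Ω P Q) {i : ℕ} {l : Fin Φ.N} {w w' : ℝ}
    (hw : HasWeight F (kerAt (opE W E) (Φ.f l) i) w)
    (hw' : HasWeight F (kerAt (opE W E) (Φ.f (Φ.bar l)) i) w') {x : W.H X}
    (hx : x ∈ kerAt (opE W E) (Φ.f l) i) (hx0 : x ≠ 0) :
    w' = -w ∧ ∃ y ∈ kerAt (opE W E) (Φ.f (Φ.bar l)) i, y ≠ 0 := by
  have hi : i ≤ 2 * X.dim := by
    by_contra hcon
    have h1 := (mem_kerAt.1 hx).1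
    rw [W.gr_eq_bot X i (by omega), Submodule.mem_bot] at h1
    exact hx0 h1
  obtain ⟨w'', hw''⟩ := exists_weight hF h (Φ.irr (Φ.bar l)) (Φ.dvd _) (2 * X.dim - i)
  obtain ⟨h1, h2⟩ := weight_dual hF h Φ hi hw hw'' hx hx0
  rcases le_or_gt i X.dim with hi' | hi'
  · obtain ⟨h3, h4⟩ := weight_lef hF h hi' hw' hw''
    obtain ⟨z, hz, hz0⟩ := h4 h2
    exact ⟨by rw [(h3 z hz hz0).1, h1], z, hz, hz0⟩
  · have hw2 : HasWeight F (kerAt (opE W E) (Φ.f (Φ.bar l)) (2 * X.dim - (2 * X.dim - i))) w' := by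
      rwa [show 2 * X.dim - (2 * X.dim - i) = i by omega]
    obtain ⟨h3, -⟩ := weight_lef hF h (show 2 * X.dim - i ≤ X.dim by omega) hw'' hw2
    obtain ⟨z, hz, hz0⟩ := h2
    obtain ⟨h5, h6⟩ := h3 z hz hz0
    rw [show 2 * X.dim - (2 * X.dim - i) = i by omega] at h6
    exact ⟨by rw [← h5, h1], h6⟩

/-- **A system of opposite weights.** -/
theorem exists_weights (hF : IsWeightFiltration W X F) (h : IsConjugation 𝒢 X D E P Q)
    (Φ : Factors W.K Ω P Q) : ∃ w : ℕ → Fin Φ.N → ℝ,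
      (∀ i l, HasWeight F (kerAt (opE W E) (Φ.f l) i) (w i l)) ∧
      ∀ i l, w i (Φ.bar l) = -w i l := by
  classical
  choose w' hw' using fun (i : ℕ) (l : Fin Φ.N) =>
    exists_weight hF h (Φ.irr l) (Φ.dvd l) i
  refine ⟨fun i l => if ∃ x ∈ kerAt (opE W E) (Φ.f l) i, x ≠ 0 then w' i l else 0, ?_, ?_⟩
  · intro i l x hx hx0
    beta_reduce
    rw [if_pos ⟨x, hx, hx0⟩]
    exact hw' i l x hx hx0
  · intro i l
    beta_reduce
    by_cases hex : ∃ x ∈ kerAt (opE W E) (Φ.f l) i, x ≠ 0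
    · obtain ⟨x, hx, hx0⟩ := hex
      obtain ⟨h1, h2⟩ := weight_bar hF h Φ (hw' i l) (hw' i (Φ.bar l)) hx hx0
      rw [if_pos h2, if_pos ⟨x, hx, hx0⟩, h1]
    · have h3 : ¬ ∃ x ∈ kerAt (opE W E) (Φ.f (Φ.bar l)) i, x ≠ 0 := by
        rintro ⟨x, hx, hx0⟩
        obtain ⟨-, h2⟩ := weight_bar hF h Φ (hw' i (Φ.bar l)) (hw' i (Φ.bar (Φ.bar l))) hx hx0
        rw [Φ.involutive] at h2
        exact hex h2
      rw [if_neg h3, if_neg hex, neg_zero]

end Dual

end Run7.h152.PW
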